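import Pool.Agent.H94.CosBUC2

/-!
# Q2: `BUC(J,X) + cos(t²) BUC(J,X)` satisfies the Loomis condition `(L_b)`

The scalar field `𝕜` is `ℝ` or `ℂ`; a Banach space over `𝕜` is regarded as a real Banach space by
restriction of scalars (only real scalars occur in the question).
-/

namespace Pool.Agent.Results.MP_ee4cf4_an.LoomisCos

open Pool.Agent.H94.CosBUC

/-- For every admissible interval `J` and every real or complex Banach space `X`, the space
`A_cos = BUC(J,X) + cos(t²) BUC(J,X)` satisfies the Loomis condition `(L_b)`. -/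
theorem result (𝕜 : Type*) [RCLike 𝕜] (X : Type*) [NormedAddCommGroup X] [NormedSpace 𝕜 X]
    [CompleteSpace X] :
    letI : NormedSpace ℝ X := NormedSpace.restrictScalars ℝ 𝕜 X
    ∀ J : Set ℝ, Admissible J → PropLb J (Acos (X := X) J) := by
  letI : NormedSpace ℝ X := NormedSpace.restrictScalars ℝ 𝕜 X
  intro J hJ
  exact propLb_Acos hJ

end Pool.Agent.Results.MP_ee4cf4_an.LoomisCos
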